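import Pool.Agent.Y507.Coi.Stm

/-! # Coisotropic capacities in all dimensions (project of helper507), job CO-SCA:
the volume of a scaled polytope -/

set_option autoImplicit false

open MeasureTheory Set
open scoped Pointwise ENNReal

namespace Pool.Agent.Y929.Coi

open Pool.Agent.Y507.Coi

theorem sca {I : Type} {k : ℕ} (κ : I → Fin (k + 1) → ℝ)
    (hb : Bornology.IsBounded (QS κ 1)) (r : ℝ) :
    volume (QS κ r) ≤ ENNReal.ofReal ((max r 0) ^ (k + 1)) * volume (QS κ 1) := by
  rcases lt_or_ge 0 r with h | h
  · have h1 : QS κ r ⊆ r • QS κ 1 := by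
      intro q hq
      refine ⟨r⁻¹ • q, fun i => ?_, ?_⟩
      · have h2 := hq i
        rwa [dotProduct_smul, smul_eq_mul, inv_mul_le_iff₀ h, mul_one]
      · show r • r⁻¹ • q = q
        rw [smul_smul, mul_inv_cancel₀ h.ne', one_smul]
    refine (measure_mono h1).trans ?_
    rw [Measure.addHaar_smul, Module.finrank_fin_fun, max_eq_left h.le,
      abs_of_nonneg (pow_nonneg h.le _)]
  · have h1 : QS κ r ⊆ {0} := by
      intro q hq
      rw [mem_singleton_iff]
      by_contra hq0
      obtain ⟨R, hR⟩ := hb.exists_norm_le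
      have hn : 0 < ‖q‖ := norm_pos_iff.2 hq0
      have h2 : ∀ s : ℝ, 0 ≤ s → s * ‖q‖ ≤ R := by
        intro s hs
        have h3 : s • q ∈ QS κ 1 := by
          intro i
          rw [dotProduct_smul, smul_eq_mul]
          have h4 := hq i
          have h5 : s * (κ i ⬝ᵥ q) ≤ 0 := mul_nonpos_of_nonneg_of_nonpos hs (h4.trans h)
          linarith
        have h6 := hR _ h3
        rwa [norm_smul, Real.norm_of_nonneg hs] at h6
      have h7 := h2 ((|R| + 1) / ‖q‖) (by positivity)
      rw [div_mul_cancel₀ _ hn.ne'] at h7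
      have := le_abs_self R
      linarith
    refine (measure_mono h1).trans ?_
    rw [measure_singleton]
    exact bot_le

theorem thm : S_SCA := fun _ _ _ _ κ hb r _ => sca κ hb r

end Pool.Agent.Y929.Coi
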